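import Pool.Agent.Zk16.Q.C
import Pool.Agent.H510R2.Div

/-! Binary quartic forms with first coefficient `w`: the count. -/

set_option autoImplicit false

open Finset

namespace Pool.Agent.Zk16.Q

open Pool.Agent.H925R.Hall Pool.Agent.R418.C5

/-- a count from the sizes of the fibres -/
theorem card_le_of_fib {α β : Type*} [DecidableEq α] [DecidableEq β] (S : Finset α) (f : α → β)
    (F N : ℝ) (hF : 0 ≤ F)
    (hfib : ∀ e0 ∈ S, ((S.filter (fun e => f e = f e0)).card : ℝ) ≤ F)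
    (hN : ((S.image f).card : ℝ) ≤ N) : (S.card : ℝ) ≤ N * F := by
  have h1 := card_eq_sum_card_fiberwise (f := f) (s := S) (t := S.image f)
    (fun e he => mem_image_of_mem _ he)
  have h2 : (S.card : ℝ) = ∑ u ∈ S.image f, ((S.filter (fun e => f e = u)).card : ℝ) := by
    exact_mod_cast h1
  rw [h2]
  calc ∑ u ∈ S.image f, ((S.filter (fun e => f e = u)).card : ℝ) ≤ ∑ _u ∈ S.image f, F := by
        apply sum_le_sum
        intro u hu
        obtain ⟨e0, he0, rfl⟩ := mem_image.mp hu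
        exact hfib e0 he0
    _ = ((S.image f).card : ℝ) * F := by rw [sum_const, nsmul_eq_mul]
    _ ≤ N * F := by gcongr

/-- a form with a rational root gives an integral root -/
theorem int_root (x y P q : ℤ) (hq : q ≠ 0)
    (h : P ^ 4 - 6 * x * P ^ 2 * q ^ 2 + 8 * y * P * q ^ 3 - 3 * x ^ 2 * q ^ 4 = 0) :
    ∃ r : ℤ, r ^ 4 - 6 * x * r ^ 2 + 8 * y * r - 3 * x ^ 2 = 0 := by
  have hdvd : q ∣ P := by
    set g := Int.gcd P q with hg
    have hgp : 0 < g := Int.gcd_pos_of_ne_zero_right _ hq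
    obtain ⟨P', hP'⟩ := Int.gcd_dvd_left P q
    obtain ⟨q1, hq1⟩ := Int.gcd_dvd_right P q
    rw [← hg] at hP' hq1
    have hgz : (g : ℤ) ≠ 0 := by omega
    have hcop : IsCoprime P' q1 := by
      rw [Int.isCoprime_iff_gcd_eq_one]
      have h2 := Int.gcd_div_gcd_div_gcd (i := P) (j := q) hgp
      rw [← hg] at h2
      have e1 : P / (g : ℤ) = P' := by rw [hP']; exact Int.mul_ediv_cancel_left _ hgz
      have e2 : q / (g : ℤ) = q1 := by rw [hq1]; exact Int.mul_ediv_cancel_left _ hgz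
      rwa [e1, e2] at h2
    have hF' : P' ^ 4 - 6 * x * P' ^ 2 * q1 ^ 2 + 8 * y * P' * q1 ^ 3 - 3 * x ^ 2 * q1 ^ 4 = 0 := by
      have h3 : (g : ℤ) ^ 4 * (P' ^ 4 - 6 * x * P' ^ 2 * q1 ^ 2 + 8 * y * P' * q1 ^ 3
          - 3 * x ^ 2 * q1 ^ 4) = 0 := by
        rw [← h]
        conv_rhs => rw [hP', hq1]
        ring
      exact (mul_eq_zero.mp h3).resolve_left (pow_ne_zero 4 hgz)
    have h4 : q1 ∣ P' ^ 4 := ⟨6 * x * P' ^ 2 * q1 - 8 * y * P' * q1 ^ 2 + 3 * x ^ 2 * q1 ^ 3, by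
      linear_combination hF'⟩
    have h5 : q1 ∣ 1 := (hcop.symm.pow_right (n := 4)).dvd_of_dvd_mul_left (by simpa using h4)
    have h6 : q ∣ (g : ℤ) := by
      rw [hq1]
      obtain ⟨c, hc⟩ := h5
      exact ⟨c, by rw [mul_assoc, ← hc, mul_one]⟩
    exact h6.trans ⟨P', hP'⟩
  obtain ⟨r, hr⟩ := hdvd
  refine ⟨r, ?_⟩
  rw [hr] at h
  have : q ^ 4 * (r ^ 4 - 6 * x * r ^ 2 + 8 * y * r - 3 * x ^ 2) = 0 := by linear_combination h
  exact (mul_eq_zero.mp this).resolve_left (pow_ne_zero 4 hq)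

section
variable {G Q W : ℝ} {w t : ℤ × ℤ → ℤ}

theorem k0_ne {T : Sys3 Q w t} {a b c : ℤ × ℤ → ℤ} {e : ℤ × ℤ}
    (hr : Qg G Q W e.1 e.2 (w e) (t e) (a e) (b e) (c e))
    (hroot : ∀ r : ℤ, r ^ 4 - 6 * e.1 * r ^ 2 + 8 * e.2 * r - 3 * e.1 ^ 2 ≠ 0) :
    k0 T a b c e ≠ 0 := by
  intro h0'
  have hqne := q_ne' hr.hQ (lam_pos _) (lam_sq_ge _) (T.red e)
  have h1 := h0_G e.1 e.2 (w e) (t e) (a e) (b e) (c e) (T.p e) (T.q e) hr.ha hr.hb hr.hc
  unfold k0 at h0'
  rw [h0', mul_zero] at h1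
  obtain ⟨r, hr'⟩ := int_root e.1 e.2 (w e * T.p e + t e * T.q e) (T.q e) hqne (by
    unfold G0 at h1
    linarith)
  exact hroot r hr'

/-- the set of cells -/
@[irreducible] noncomputable def cells : Finset (ℤ × ℤ) := Icc (-200) 200 ×ˢ Icc 0 100

theorem cells_card : cells.card = 40501 := by
  unfold cells
  rw [card_product]
  simp

theorem cell_mem (T : Sys3 Q w t) (hQ0 : 0 < Q) {e : ℤ × ℤ} {j : ℕ} (hj : T.j e = j) :
    cell T (lam j) e ∈ cells := by
  have hred := T.red e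
  rw [hj] at hred
  have hl0 := lam_pos j
  set l := lam j with hl
  unfold cells
  rw [mem_product]
  simp only [cell]
  constructor
  · have h4 := hred.h4
    have h5 : |(T.q' e : ℝ) / (l * Q)| ≤ 2 := by
      rw [abs_div, abs_of_pos (by positivity : 0 < l * Q), div_le_iff₀ (by positivity)]
      linarith
    obtain ⟨h6, h7⟩ := abs_le.mp h5
    rw [mem_Icc]
    constructor
    · apply Int.le_floor.mpr; push_cast; linarith
    · have : ⌊100 * ((T.q' e : ℝ) / (l * Q))⌋ < 201 := by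
        rw [Int.floor_lt]; push_cast; linarith
      omega
  · have h4 := hred.h2
    have h5 : (T.q e : ℝ) * l / Q ≤ 1 := by
      rw [div_le_one hQ0]
      rw [le_div_iff₀ hl0] at h4
      exact (mul_le_mul_of_nonneg_right (le_abs_self _) hl0.le).trans h4
    have h6 : 0 ≤ (T.q e : ℝ) * l / Q := by
      have : (0 : ℝ) ≤ T.q e := by exact_mod_cast T.q0 e
      positivity
    rw [mem_Icc]
    constructor
    · exact Int.floor_nonneg.mpr (by positivity)
    · have : ⌊100 * ((T.q e : ℝ) * l / Q)⌋ < 101 := by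
        rw [Int.floor_lt]; push_cast; linarith
      omega

theorem fib4 (T : Sys3 Q w t) (a b c : ℤ × ℤ → ℤ) (j : ℕ) (S : Finset (ℤ × ℤ))
    (hr : ∀ e ∈ S, Qg G Q W e.1 e.2 (w e) (t e) (a e) (b e) (c e)) (hj : ∀ e ∈ S, T.j e = j)
    (e0 : ℤ × ℤ) (he0 : e0 ∈ S) (f : ℤ × ℤ → Prop) [DecidablePred f] (hf0 : f e0)
    (hf : ∀ e ∈ S, f e → k0 T a b c e = k0 T a b c e0 ∧ k1 T a b c e = k1 T a b c e0 ∧
      k2 T a b c e = k2 T a b c e0 ∧ k3 T a b c e = k3 T a b c e0 ∧
      k4 T a b c e = k4 T a b c e0 ∧ cell T (lam j) e = cell T (lam j) e0) :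
    ((S.filter f).card : ℝ) ≤ 66 * (1 + W / (G * Q ^ 2)) := by
  have hU : ∀ e ∈ S.filter f, e ∈ S ∧ f e := fun e he => mem_filter.mp he
  have h := pair_count4 T a b c j (S.filter f) (fun e he => hr e (hU e he).1)
    (fun e he => hj e (hU e he).1) e0 (mem_filter.mpr ⟨he0, hf0⟩)
    (fun e he => (hf e (hU e he).1 (hU e he).2).1)
    (fun e he => (hf e (hU e he).1 (hU e he).2).2.1)
    (fun e he => (hf e (hU e he).1 (hU e he).2).2.2.1)
    (fun e he => (hf e (hU e he).1 (hU e he).2).2.2.2.1)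
    (fun e he => (hf e (hU e he).1 (hU e he).2).2.2.2.2.1)
    (fun e he => (hf e (hU e he).1 (hU e he).2).2.2.2.2.2)
  refine h.trans ?_
  have hr0 := hr e0 he0
  have hG := hr0.hG
  have hQ := hr0.hQ
  have hW0 : 0 ≤ W := by linarith [hr0.wR, hr0.wW]
  have h2 : 0 ≤ W / (G * Q ^ 2) := by positivity
  have e : 5 * W / (G * Q ^ 2) = 5 * (W / (G * Q ^ 2)) := by ring
  rw [e]
  linarith

theorem one_scale4 (T : Sys3 Q w t) (a b c : ℤ × ℤ → ℤ) (hG : 1 ≤ G) (hQ : 6 ≤ Q) (hW : 1 ≤ W)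
    (D : ℕ) (hD1 : 1 ≤ D)
    (hD : ∀ n : ℕ, 1 ≤ n → (n : ℝ) ≤ 122000 * G ^ 2 → n.divisors.card ≤ D)
    (j : ℕ) (S : Finset (ℤ × ℤ))
    (hr : ∀ e ∈ S, Qg G Q W e.1 e.2 (w e) (t e) (a e) (b e) (c e)) (hj : ∀ e ∈ S, T.j e = j)
    (hk0 : ∀ e ∈ S, k0 T a b c e ≠ 0) (hl4 : lam j ^ 4 ≤ 33 * G) :
    (S.card : ℝ) ≤ 10 ^ 15 * D * G ^ 3 * (1 + W / (G * Q ^ 2)) := by
  classical
  have hQ0 : 0 < Q := by linarith
  have hG0 : 0 < G := by linarith
  set l := lam j with hld
  have hl0 : 0 < l := lam_pos j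
  have hl2 : 1 / 2 ≤ l ^ 2 := lam_sq_ge j
  have hl2G : l ^ 2 ≤ 6 * G := by
    have h1 : (l ^ 2) ^ 2 ≤ (6 * G) ^ 2 := by
      calc (l ^ 2) ^ 2 = l ^ 4 := by ring
        _ ≤ 33 * G := hl4
        _ ≤ (6 * G) ^ 2 := by nlinarith
    exact (abs_le_of_sq_le_sq' h1 (by positivity)).2
  have hX0 : 0 ≤ W / (G * Q ^ 2) := by positivity
  set F := 66 * (1 + W / (G * Q ^ 2)) with hF
  have hF0 : 0 ≤ F := by positivity
  set A0 := 33 * G / l ^ 4 with hA0
  set A1 := 66 * G / l ^ 2 with hA1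
  set A2 := 132 * G with hA2
  set A3 := 264 * G * l ^ 2 with hA3
  have hA0' : 0 ≤ A0 := by positivity
  have hA1' : 0 ≤ A1 := by positivity
  have hA2' : 0 ≤ A2 := by positivity
  have hA3' : 0 ≤ A3 := by positivity
  -- facts on the coefficients
  have fact : ∀ e ∈ S, |((k0 T a b c e : ℤ) : ℝ)| ≤ A0 ∧ |((k1 T a b c e : ℤ) : ℝ)| ≤ A1 ∧
      |((k2 T a b c e : ℤ) : ℝ)| ≤ A2 ∧ |((k3 T a b c e : ℤ) : ℝ)| ≤ A3 ∧
      k0 T a b c e * k4 T a b c e = 4 * k1 T a b c e * k3 T a b c e - 3 * k2 T a b c e ^ 2 ∧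
      cell T l e ∈ cells := by
    intro e he
    have hre := hr e he
    have hred := T.red e
    rw [hj e he, ← hld] at hred
    obtain ⟨-, -, -, hI⟩ := vals4 T a b c e hre
    unfold I4 at hI
    exact ⟨h0_bd hre hl0 hred, h1_bd hre hl0 hred, h2_bd hre hl0 hred, h3_bd hre hl0 hred,
      by linarith, cell_mem T hQ0 (hj e he)⟩
  have ccard : (cells.card : ℝ) = 40501 := by rw [cells_card]; norm_num
  -- box sizes
  have hB0 : ((Icc (-⌊A0⌋) ⌊A0⌋).card : ℝ) ≤ 99 * G / l ^ 4 := by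
    refine (card_box A0 hA0').trans ?_
    have h1 : 1 ≤ 33 * G / l ^ 4 := by rw [le_div_iff₀ (by positivity)]; linarith
    have e : 99 * G / l ^ 4 = 2 * (33 * G / l ^ 4) + 33 * G / l ^ 4 := by ring
    rw [e, hA0]; linarith
  have hB1 : ((Icc (-⌊A1⌋) ⌊A1⌋).card : ℝ) ≤ 138 * G / l ^ 2 := by
    refine (card_box A1 hA1').trans ?_
    have h1 : 1 ≤ 6 * G / l ^ 2 := by rw [le_div_iff₀ (by positivity)]; linarith
    have e : 138 * G / l ^ 2 = 2 * (66 * G / l ^ 2) + 6 * G / l ^ 2 := by ring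
    rw [e, hA1]; linarith
  have hB2 : ((Icc (-⌊A2⌋) ⌊A2⌋).card : ℝ) ≤ 265 * G := by
    refine (card_box A2 hA2').trans ?_
    rw [hA2]; linarith
  have hB3 : ((Icc (-⌊A3⌋) ⌊A3⌋).card : ℝ) ≤ 530 * G * l ^ 2 := by
    refine (card_box A3 hA3').trans ?_
    have : 1 ≤ 2 * G * l ^ 2 := by nlinarith
    rw [hA3]; linarith
  set NN : ℤ × ℤ → ℤ := fun e => 4 * k1 T a b c e * k3 T a b c e - 3 * k2 T a b c e ^ 2 with hNN
  set S1 := S.filter (fun e => NN e ≠ 0) with hS1
  set S2 := S.filter (fun e => NN e = 0 ∧ k1 T a b c e ≠ 0) with hS2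
  set S3 := S.filter (fun e => NN e = 0 ∧ k1 T a b c e = 0) with hS3
  have hcov : S ⊆ S1 ∪ (S2 ∪ S3) := by
    intro e he
    simp only [hS1, hS2, hS3, mem_union, mem_filter]
    by_cases h1 : NN e = 0
    · by_cases h2 : k1 T a b c e = 0
      · exact Or.inr (Or.inr ⟨he, h1, h2⟩)
      · exact Or.inr (Or.inl ⟨he, h1, h2⟩)
    · exact Or.inl ⟨he, h1⟩
  -- the general position
  have c1 : (S1.card : ℝ) ≤ (19500000 * G ^ 3 * (2 * D) * 40501) * F := by
    have hm : ∀ e ∈ S1, e ∈ S ∧ NN e ≠ 0 := fun e he => mem_filter.mp he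
    apply card_le_of_fib S1 (fun e => (((k1 T a b c e, k2 T a b c e, k3 T a b c e),
      k0 T a b c e), cell T l e)) F _ hF0
    · intro e0 he0
      obtain ⟨h1, h2⟩ := hm e0 he0
      rw [hS1, filter_filter]
      refine fib4 T a b c j S hr hj e0 h1 _ ⟨h2, rfl⟩ ?_
      rintro e he ⟨-, h4⟩
      simp only [Prod.mk.injEq] at h4
      obtain ⟨⟨⟨g1, g2, g3⟩, g0⟩, g5⟩ := h4
      refine ⟨g0, g1, g2, g3, ?_, g5⟩
      have i1 := (fact e he).2.2.2.2.1
      have i2 := (fact e0 h1).2.2.2.2.1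
      rw [g0, g1, g2, g3, ← i2] at i1
      exact mul_left_cancel₀ (hk0 e0 h1) i1
    · set BB := (Icc (-⌊A1⌋) ⌊A1⌋) ×ˢ (Icc (-⌊A2⌋) ⌊A2⌋) ×ˢ (Icc (-⌊A3⌋) ⌊A3⌋) with hBB
      set f : ℤ × ℤ × ℤ → ℤ := fun v => 4 * v.1 * v.2.2 - 3 * v.2.1 ^ 2 with hf
      set ds : ℤ → Finset ℤ := fun n => n.natAbs.divisors.image (fun d : ℕ => (d : ℤ)) ∪
        n.natAbs.divisors.image (fun d : ℕ => -(d : ℤ)) with hds
      have hsub : S1.image (fun e => (((k1 T a b c e, k2 T a b c e, k3 T a b c e),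
          k0 T a b c e), cell T l e)) ⊆ ((BB.filter (fun v => f v ≠ 0)).biUnion
            (fun v => (ds (f v)).image (fun d => (v, d)))) ×ˢ cells := by
        intro u hu
        obtain ⟨e, he, rfl⟩ := mem_image.mp hu
        obtain ⟨h1, h2⟩ := hm e he
        obtain ⟨f0, f1, f2, f3, f4, f5⟩ := fact e h1
        rw [mem_product]
        refine ⟨?_, f5⟩
        rw [mem_biUnion]
        refine ⟨(k1 T a b c e, k2 T a b c e, k3 T a b c e), ?_, ?_⟩
        · rw [mem_filter, hBB, mem_product, mem_product]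
          exact ⟨⟨mem_box f1, mem_box f2, mem_box f3⟩, h2⟩
        · rw [mem_image]
          refine ⟨k0 T a b c e, ?_, rfl⟩
          have hd : k0 T a b c e ∣ f (k1 T a b c e, k2 T a b c e, k3 T a b c e) :=
            ⟨k4 T a b c e, by simp only [hf]; linarith⟩
          have hd2 : (k0 T a b c e).natAbs ∈
              (f (k1 T a b c e, k2 T a b c e, k3 T a b c e)).natAbs.divisors := by
            rw [Nat.mem_divisors]
            exact ⟨Int.natAbs_dvd_natAbs.mpr hd, Int.natAbs_ne_zero.mpr h2⟩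
          simp only [hds]
          rw [mem_union, mem_image, mem_image]
          rcases Int.natAbs_eq (k0 T a b c e) with h | h
          · left; exact ⟨_, hd2, h.symm⟩
          · right; exact ⟨_, hd2, h.symm⟩
      have h3 := card_le_card hsub
      rw [card_product] at h3
      have h4 : ((BB.filter (fun v => f v ≠ 0)).biUnion
            (fun v => (ds (f v)).image (fun d => (v, d)))).card ≤ BB.card * (2 * D) := by
        refine le_trans (card_biUnion_le_card_mul _ _ (2 * D) ?_)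
          (Nat.mul_le_mul_right _ (card_filter_le _ _))
        intro v hv
        rw [mem_filter, hBB, mem_product, mem_product] at hv
        obtain ⟨⟨v1, v2, v3⟩, v4⟩ := hv
        refine card_image_le.trans ?_
        have hn : (f v).natAbs.divisors.card ≤ D := by
          apply hD
          · have := Int.natAbs_pos.mpr v4
            omega
          · rw [Nat.cast_natAbs]
            have hb : ∀ {A : ℝ} {n : ℤ}, n ∈ Icc (-⌊A⌋) ⌊A⌋ → |(n : ℝ)| ≤ A := by
              intro A n hn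
              have h3 := Int.floor_le A
              have := mem_Icc.mp hn
              rw [abs_le]
              constructor
              · have : (-(⌊A⌋ : ℝ)) ≤ n := by exact_mod_cast this.1
                linarith
              · have : (n : ℝ) ≤ ⌊A⌋ := by exact_mod_cast this.2
                linarith
            have w1 := hb v1
            have w2 := hb v2
            have w3 := hb v3
            have e1 : ((|f v| : ℤ) : ℝ) = |4 * ((v.1 : ℝ) * v.2.2) - 3 * (v.2.1 : ℝ) ^ 2| := by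
              simp only [hf]; push_cast; ring_nf
            rw [e1]
            calc |4 * ((v.1 : ℝ) * v.2.2) - 3 * (v.2.1 : ℝ) ^ 2| ≤
                |4 * ((v.1 : ℝ) * v.2.2)| + |3 * (v.2.1 : ℝ) ^ 2| := abs_sub _ _
              _ = 4 * (|(v.1 : ℝ)| * |(v.2.2 : ℝ)|) + 3 * |(v.2.1 : ℝ)| ^ 2 := by
                  rw [abs_mul, abs_mul, abs_mul, abs_pow]; norm_num
              _ ≤ 4 * (A1 * A3) + 3 * A2 ^ 2 := by gcongr
              _ = 121968 * G ^ 2 := by rw [hA1, hA2, hA3]; field_simp; ring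
              _ ≤ 122000 * G ^ 2 := by
                  have : 0 < G ^ 2 := by positivity
                  linarith
        simp only [hds]
        refine (card_union_le _ _).trans ?_
        have u1 : ((f v).natAbs.divisors.image (fun d : ℕ => (d : ℤ))).card ≤ D :=
          card_image_le.trans hn
        have u2 : ((f v).natAbs.divisors.image (fun d : ℕ => -(d : ℤ))).card ≤ D :=
          card_image_le.trans hn
        omega
      have h5 : (BB.card : ℝ) ≤ 19500000 * G ^ 3 := by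
        rw [hBB, card_product, card_product]
        push_cast
        calc ((Icc (-⌊A1⌋) ⌊A1⌋).card : ℝ) * (((Icc (-⌊A2⌋) ⌊A2⌋).card : ℝ) *
              ((Icc (-⌊A3⌋) ⌊A3⌋).card : ℝ)) ≤ (138 * G / l ^ 2) * ((265 * G) * (530 * G * l ^ 2)) :=
              mul_le_mul hB1 (mul_le_mul hB2 hB3 (Nat.cast_nonneg _) (by positivity))
                (by positivity) (by positivity)
          _ = 19382100 * G ^ 3 := by field_simp; ring
          _ ≤ 19500000 * G ^ 3 := by
              have : 0 < G ^ 3 := by positivity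
              linarith
      calc _ ≤ ((((BB.filter (fun v => f v ≠ 0)).biUnion
            (fun v => (ds (f v)).image (fun d => (v, d)))).card * cells.card : ℕ) : ℝ) := by
              exact_mod_cast h3
        _ ≤ (((BB.card * (2 * D)) * cells.card : ℕ) : ℝ) := by
            exact_mod_cast Nat.mul_le_mul_right _ h4
        _ = (BB.card : ℝ) * (2 * D) * 40501 := by push_cast; rw [ccard]
        _ ≤ 19500000 * G ^ 3 * (2 * D) * 40501 := by gcongr
  -- vanishing last coefficient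
  have c2 : (S2.card : ℝ) ≤ (30000000 * G ^ 3 * 40501) * F := by
    have hm : ∀ e ∈ S2, e ∈ S ∧ NN e = 0 ∧ k1 T a b c e ≠ 0 := fun e he => mem_filter.mp he
    apply card_le_of_fib S2 (fun e => ((k0 T a b c e, k1 T a b c e, k2 T a b c e),
      cell T l e)) F _ hF0
    · intro e0 he0
      obtain ⟨h1, h2, h3⟩ := hm e0 he0
      rw [hS2, filter_filter]
      refine fib4 T a b c j S hr hj e0 h1 _ ⟨⟨h2, h3⟩, rfl⟩ ?_
      rintro e he ⟨⟨h5, h6⟩, h4⟩
      simp only [Prod.mk.injEq] at h4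
      obtain ⟨⟨g0, g1, g2⟩, g5⟩ := h4
      have i1 := (fact e he).2.2.2.2.1
      have i2 := (fact e0 h1).2.2.2.2.1
      simp only [hNN] at h5 h2
      rw [h5] at i1
      rw [h2] at i2
      have j1 := (mul_eq_zero.mp i1).resolve_left (hk0 e he)
      have j2 := (mul_eq_zero.mp i2).resolve_left (hk0 e0 h1)
      refine ⟨g0, g1, g2, ?_, by rw [j1, j2], g5⟩
      rw [g1, g2] at h5
      have : 4 * k1 T a b c e0 * k3 T a b c e = 4 * k1 T a b c e0 * k3 T a b c e0 := by linarith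
      exact mul_left_cancel₀ (mul_ne_zero (by norm_num) h3) this
    · have hsub : S2.image (fun e => ((k0 T a b c e, k1 T a b c e, k2 T a b c e),
          cell T l e)) ⊆ ((Icc (-⌊A0⌋) ⌊A0⌋) ×ˢ (Icc (-⌊A1⌋) ⌊A1⌋) ×ˢ (Icc (-⌊A2⌋) ⌊A2⌋)) ×ˢ
            cells := by
        intro u hu
        obtain ⟨e, he, rfl⟩ := mem_image.mp hu
        obtain ⟨h1, h2⟩ := hm e he
        obtain ⟨f0, f1, f2, f3, f4, f5⟩ := fact e h1
        rw [mem_product, mem_product, mem_product]
        exact ⟨⟨mem_box f0, mem_box f1, mem_box f2⟩, f5⟩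
      have h3 := card_le_card hsub
      rw [card_product, card_product, card_product] at h3
      calc _ ≤ (((Icc (-⌊A0⌋) ⌊A0⌋).card * ((Icc (-⌊A1⌋) ⌊A1⌋).card *
            (Icc (-⌊A2⌋) ⌊A2⌋).card) * cells.card : ℕ) : ℝ) := by exact_mod_cast h3
        _ = ((Icc (-⌊A0⌋) ⌊A0⌋).card : ℝ) * (((Icc (-⌊A1⌋) ⌊A1⌋).card : ℝ) *
            ((Icc (-⌊A2⌋) ⌊A2⌋).card : ℝ)) * 40501 := by push_cast; rw [ccard]
        _ ≤ (99 * G / l ^ 4) * ((138 * G / l ^ 2) * (265 * G)) * 40501 := by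
            apply mul_le_mul_of_nonneg_right _ (by norm_num)
            exact mul_le_mul hB0 (mul_le_mul hB1 hB2 (Nat.cast_nonneg _) (by positivity))
                (by positivity) (by positivity)
        _ = 3620430 * G ^ 3 * (1 / (l ^ 2) ^ 3) * 40501 := by field_simp; ring
        _ ≤ 3620430 * G ^ 3 * 8 * 40501 := by
            gcongr
            rw [div_le_iff₀ (by positivity)]
            have : (1 / 2 : ℝ) ^ 3 ≤ (l ^ 2) ^ 3 := by gcongr
            linarith
        _ ≤ 30000000 * G ^ 3 * 40501 := by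
            have : 0 < G ^ 3 := by positivity
            linarith
  have c3 : (S3.card : ℝ) ≤ (110000 * G ^ 3 * 40501) * F := by
    have hm : ∀ e ∈ S3, e ∈ S ∧ NN e = 0 ∧ k1 T a b c e = 0 := fun e he => mem_filter.mp he
    apply card_le_of_fib S3 (fun e => ((k0 T a b c e, k3 T a b c e),
      cell T l e)) F _ hF0
    · intro e0 he0
      obtain ⟨h1, h2, h3⟩ := hm e0 he0
      rw [hS3, filter_filter]
      refine fib4 T a b c j S hr hj e0 h1 _ ⟨⟨h2, h3⟩, rfl⟩ ?_
      rintro e he ⟨⟨h5, h6⟩, h4⟩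
      simp only [Prod.mk.injEq] at h4
      obtain ⟨⟨g0, g3⟩, g5⟩ := h4
      have i1 := (fact e he).2.2.2.2.1
      have i2 := (fact e0 h1).2.2.2.2.1
      simp only [hNN] at h5 h2
      rw [h5] at i1
      rw [h2] at i2
      have j1 := (mul_eq_zero.mp i1).resolve_left (hk0 e he)
      have j2 := (mul_eq_zero.mp i2).resolve_left (hk0 e0 h1)
      have m1 : k2 T a b c e = 0 := by
        rw [h6] at h5
        have : k2 T a b c e ^ 2 = 0 := by linarith
        exact pow_eq_zero_iff (two_ne_zero) |>.mp this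
      have m2 : k2 T a b c e0 = 0 := by
        rw [h3] at h2
        have : k2 T a b c e0 ^ 2 = 0 := by linarith
        exact pow_eq_zero_iff (two_ne_zero) |>.mp this
      exact ⟨g0, by rw [h6, h3], by rw [m1, m2], g3, by rw [j1, j2], g5⟩
    · have hsub : S3.image (fun e => ((k0 T a b c e, k3 T a b c e),
          cell T l e)) ⊆ ((Icc (-⌊A0⌋) ⌊A0⌋) ×ˢ (Icc (-⌊A3⌋) ⌊A3⌋)) ×ˢ cells := by
        intro u hu
        obtain ⟨e, he, rfl⟩ := mem_image.mp hu
        obtain ⟨h1, h2⟩ := hm e he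
        obtain ⟨f0, f1, f2, f3, f4, f5⟩ := fact e h1
        rw [mem_product, mem_product]
        exact ⟨⟨mem_box f0, mem_box f3⟩, f5⟩
      have h3 := card_le_card hsub
      rw [card_product, card_product] at h3
      calc _ ≤ (((Icc (-⌊A0⌋) ⌊A0⌋).card * (Icc (-⌊A3⌋) ⌊A3⌋).card * cells.card : ℕ) : ℝ) := by
              exact_mod_cast h3
        _ = ((Icc (-⌊A0⌋) ⌊A0⌋).card : ℝ) * ((Icc (-⌊A3⌋) ⌊A3⌋).card : ℝ) * 40501 := by
            push_cast; rw [ccard]
        _ ≤ (99 * G / l ^ 4) * (530 * G * l ^ 2) * 40501 := by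
            apply mul_le_mul_of_nonneg_right _ (by norm_num)
            exact mul_le_mul hB0 hB3 (Nat.cast_nonneg _) (by positivity)
        _ = 52470 * G ^ 2 * (1 / l ^ 2) * 40501 := by field_simp; ring
        _ ≤ 52470 * G ^ 2 * 2 * 40501 := by
            gcongr
            rw [div_le_iff₀ (by positivity)]
            linarith
        _ ≤ 110000 * G ^ 3 * 40501 := by
            have : G ^ 2 ≤ G ^ 3 := pow_le_pow_right₀ hG (by norm_num)
            have : 0 < G ^ 2 := by positivity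
            linarith
  have h1 := card_le_card hcov
  have h2 : S.card ≤ S1.card + (S2.card + S3.card) :=
    h1.trans ((card_union_le _ _).trans (Nat.add_le_add_left (card_union_le _ _) _))
  have h3 : (S.card : ℝ) ≤ S1.card + (S2.card + S3.card) := by exact_mod_cast h2
  have hDR : (1 : ℝ) ≤ D := by exact_mod_cast hD1
  have hG3 : 0 < G ^ 3 := by positivity
  have h4 : 0 ≤ G ^ 3 * F := by positivity
  calc (S.card : ℝ) ≤ (19500000 * G ^ 3 * (2 * D) * 40501) * F +
        ((30000000 * G ^ 3 * 40501) * F + (110000 * G ^ 3 * 40501) * F) := by linarith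
    _ = (39000000 * 40501 * D + 30110000 * 40501) * (G ^ 3 * F) := by ring
    _ ≤ (70000000 * 40501 * D) * (G ^ 3 * F) := by
        apply mul_le_mul_of_nonneg_right _ h4
        nlinarith
    _ = (70000000 * 40501 * 66) * (D * G ^ 3 * (1 + W / (G * Q ^ 2))) := by rw [hF]; ring
    _ ≤ 10 ^ 15 * (D * G ^ 3 * (1 + W / (G * Q ^ 2))) := by
        apply mul_le_mul_of_nonneg_right (by norm_num)
        positivity
    _ = _ := by ring

end

end Pool.Agent.Zk16.Q
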