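import Pool.Agent.R418.C5.D

/-! Binary quartic forms with first coefficient `w` attached to `y² ≡ x³` modulo `w³`: identities. -/

set_option autoImplicit false

namespace Pool.Agent.Zk16.Q

open Pool.Agent.H925R.Hall

section alg
variable {A : Type*} [CommRing A]

/-- the form `(w, 4t, 6a, 4b, c)` -/
def h0 (w t a b c p q : A) : A :=
  w * p ^ 4 + 4 * t * p ^ 3 * q + 6 * a * p ^ 2 * q ^ 2 + 4 * b * p * q ^ 3 + c * q ^ 4

/-- polar form, three times the first vector -/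
def h1 (w t a b c p q p' q' : A) : A :=
  w * p ^ 3 * p' + t * (p ^ 3 * q' + 3 * p ^ 2 * p' * q) + 3 * a * (p ^ 2 * q * q' + p * p' * q ^ 2)
    + b * (3 * p * q ^ 2 * q' + p' * q ^ 3) + c * q ^ 3 * q'

/-- polar form, twice each vector -/
def h2 (w t a b c p q p' q' : A) : A :=
  w * p ^ 2 * p' ^ 2 + 2 * t * (p ^ 2 * p' * q' + p * p' ^ 2 * q) +
    a * (p ^ 2 * q' ^ 2 + 4 * p * p' * q * q' + p' ^ 2 * q ^ 2) +
    2 * b * (p * q * q' ^ 2 + p' * q ^ 2 * q') + c * q ^ 2 * q' ^ 2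

theorem h0_G (x y w t a b c p q : A) (ha : w * a = t ^ 2 - x)
    (hb : w ^ 2 * b = t ^ 3 - 3 * x * t + 2 * y)
    (hc : w ^ 3 * c = t ^ 4 - 6 * x * t ^ 2 + 8 * y * t - 3 * x ^ 2) :
    w ^ 3 * h0 w t a b c p q = G0 x y (w * p + t * q) q := by
  unfold h0 G0
  linear_combination (6 * w ^ 2 * p ^ 2 * q ^ 2) * ha + (4 * w * p * q ^ 3) * hb + q ^ 4 * hc

theorem h1_G (x y w t a b c p q p' q' : A) (ha : w * a = t ^ 2 - x)
    (hb : w ^ 2 * b = t ^ 3 - 3 * x * t + 2 * y)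
    (hc : w ^ 3 * c = t ^ 4 - 6 * x * t ^ 2 + 8 * y * t - 3 * x ^ 2) :
    w ^ 3 * h1 w t a b c p q p' q' = G1 x y (w * p + t * q) q (w * p' + t * q') q' := by
  unfold h1 G1
  linear_combination (3 * w ^ 2 * (p ^ 2 * q * q' + p * p' * q ^ 2)) * ha +
    (w * (3 * p * q ^ 2 * q' + p' * q ^ 3)) * hb + (q ^ 3 * q') * hc

theorem h2_G (x y w t a b c p q p' q' : A) (ha : w * a = t ^ 2 - x)
    (hb : w ^ 2 * b = t ^ 3 - 3 * x * t + 2 * y)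
    (hc : w ^ 3 * c = t ^ 4 - 6 * x * t ^ 2 + 8 * y * t - 3 * x ^ 2) :
    w ^ 3 * h2 w t a b c p q p' q' = G2 x y (w * p + t * q) q (w * p' + t * q') q' := by
  unfold h2 G2
  linear_combination (w ^ 2 * (p ^ 2 * q' ^ 2 + 4 * p * p' * q * q' + p' ^ 2 * q ^ 2)) * ha +
    (2 * w * (p * q * q' ^ 2 + p' * q ^ 2 * q')) * hb + (q ^ 2 * q' ^ 2) * hc

/-- value of a form at `(v, -u)` -/
def V4 (k0 k1 k2 k3 k4 u v : A) : A :=
  k0 * v ^ 4 - 4 * k1 * v ^ 3 * u + 6 * k2 * v ^ 2 * u ^ 2 - 4 * k3 * v * u ^ 3 + k4 * u ^ 4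

/-- minus the value of the Hessian at `(v, -u)` -/
def Hs4 (k0 k1 k2 k3 k4 u v : A) : A :=
  (k1 ^ 2 - k0 * k2) * v ^ 4 - 2 * (k1 * k2 - k0 * k3) * v ^ 3 * u +
    (3 * k2 ^ 2 - k0 * k4 - 2 * k1 * k3) * v ^ 2 * u ^ 2 - 2 * (k2 * k3 - k1 * k4) * v * u ^ 3 +
    (k3 ^ 2 - k2 * k4) * u ^ 4

/-- the invariant `J` -/
def J4 (k0 k1 k2 k3 k4 : A) : A :=
  k0 * k2 * k4 + 2 * k1 * k2 * k3 - k2 ^ 3 - k0 * k3 ^ 2 - k1 ^ 2 * k4

/-- the invariant `I` -/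
def I4 (k0 k1 k2 k3 k4 : A) : A := k0 * k4 - 4 * k1 * k3 + 3 * k2 ^ 2

theorem V4_h (w t a b c p q p' q' u v : A) :
    V4 (h0 w t a b c p q) (h1 w t a b c p q p' q') (h2 w t a b c p q p' q')
      (h1 w t a b c p' q' p q) (h0 w t a b c p' q') u v =
      h0 w t a b c (v * p - u * p') (v * q - u * q') := by
  unfold V4 h0 h1 h2; ring

theorem Hs4_h (w t a b c p q p' q' u v : A) :
    Hs4 (h0 w t a b c p q) (h1 w t a b c p q p' q') (h2 w t a b c p q p' q')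
      (h1 w t a b c p' q' p q) (h0 w t a b c p' q') u v =
      Hs4 w t a b c (-(v * q - u * q')) (v * p - u * p') * (p * q' - p' * q) ^ 2 := by
  unfold Hs4 h0 h1 h2; ring

theorem I4_h (w t a b c p q p' q' : A) :
    I4 (h0 w t a b c p q) (h1 w t a b c p q p' q') (h2 w t a b c p q p' q')
      (h1 w t a b c p' q' p q) (h0 w t a b c p' q') = I4 w t a b c * (p * q' - p' * q) ^ 4 := by
  unfold I4 h0 h1 h2; ring

theorem J4_h (w t a b c p q p' q' : A) :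
    J4 (h0 w t a b c p q) (h1 w t a b c p q p' q') (h2 w t a b c p q p' q')
      (h1 w t a b c p' q' p q) (h0 w t a b c p' q') = J4 w t a b c * (p * q' - p' * q) ^ 6 := by
  unfold J4 h0 h1 h2; ring

theorem I4_0 (x y w t a b c : A) (ha : w * a = t ^ 2 - x)
    (hb : w ^ 2 * b = t ^ 3 - 3 * x * t + 2 * y)
    (hc : w ^ 3 * c = t ^ 4 - 6 * x * t ^ 2 + 8 * y * t - 3 * x ^ 2) :
    w ^ 2 * I4 w t a b c = 0 := by
  unfold I4
  linear_combination hc - 4 * t * hb + (3 * (w * a + (t ^ 2 - x))) * ha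

theorem J4_0 (x y w t a b c : A) (ha : w * a = t ^ 2 - x)
    (hb : w ^ 2 * b = t ^ 3 - 3 * x * t + 2 * y)
    (hc : w ^ 3 * c = t ^ 4 - 6 * x * t ^ 2 + 8 * y * t - 3 * x ^ 2) :
    w ^ 3 * J4 w t a b c = 4 * (x ^ 3 - y ^ 2) := by
  unfold J4
  have e1 : w ^ 3 * (w * a * c + 2 * t * a * b - a ^ 3 - w * b ^ 2 - t ^ 2 * c) =
      (w * a) * (w ^ 3 * c) + 2 * t * (w * a) * (w ^ 2 * b) - (w * a) ^ 3 - (w ^ 2 * b) ^ 2
        - t ^ 2 * (w ^ 3 * c) := by ring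
  rw [e1, ha, hb, hc]
  ring

theorem Hs4_0 (x y w t a b c z d : A) (ha : w * a = t ^ 2 - x)
    (hb : w ^ 2 * b = t ^ 3 - 3 * x * t + 2 * y)
    (hc : w ^ 3 * c = t ^ 4 - 6 * x * t ^ 2 + 8 * y * t - 3 * x ^ 2) :
    w ^ 4 * Hs4 w t a b c (-d) z = x * (w * z + t * d) ^ 4 - 4 * y * (w * z + t * d) ^ 3 * d +
      6 * x ^ 2 * (w * z + t * d) ^ 2 * d ^ 2 - 4 * x * y * (w * z + t * d) * d ^ 3 +
      (4 * y ^ 2 - 3 * x ^ 3) * d ^ 4 := by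
  unfold Hs4
  have e1 : w ^ 4 * ((t ^ 2 - w * a) * z ^ 4 - 2 * (t * a - w * b) * z ^ 3 * -d +
      (3 * a ^ 2 - w * c - 2 * t * b) * z ^ 2 * (-d) ^ 2 - 2 * (a * b - t * c) * z * (-d) ^ 3 +
      (b ^ 2 - a * c) * (-d) ^ 4) =
      w ^ 4 * (t ^ 2 - w * a) * z ^ 4 + 2 * w ^ 2 * w * (t * (w * a) - (w ^ 2 * b)) * z ^ 3 * d +
      w ^ 2 * (3 * (w * a) ^ 2 - (w ^ 3 * c) - 2 * t * (w ^ 2 * b)) * z ^ 2 * d ^ 2 +
      2 * w * ((w * a) * (w ^ 2 * b) - t * (w ^ 3 * c)) * z * d ^ 3 +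
      ((w ^ 2 * b) ^ 2 - (w * a) * (w ^ 3 * c)) * d ^ 4 := by ring
  rw [e1, ha, hb, hc]
  ring

theorem Hs4_00 (w t a b c : A) : Hs4 w t a b c 0 1 = t ^ 2 - w * a := by
  unfold Hs4; ring

end alg

end Pool.Agent.Zk16.Q
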