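import Pool.Agent.Zk16.Q.A

/-! Binary quartic forms with first coefficient `w`: real estimates. -/

set_option autoImplicit false

open Finset

namespace Pool.Agent.Zk16.Q

open Pool.Agent.H925R.Hall Pool.Agent.R418.C5

/-- the polar form in the coordinates `u = P - s R`, `R` -/
noncomputable def polw (w s k u1 R1 u2 R2 u3 R3 u4 R4 : ℝ) : ℝ :=
  w * (u1 * u2 * u3 * u4) + s * (R1 * u2 * u3 * u4 + u1 * R2 * u3 * u4 + u1 * u2 * R3 * u4 +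
    u1 * u2 * u3 * R4) + 2 * k * ((w * u1 + s * R1) * R2 * R3 * R4 +
    R1 * (w * u2 + s * R2) * R3 * R4 +
    R1 * R2 * (w * u3 + s * R3) * R4 + R1 * R2 * R3 * (w * u4 + s * R4))

theorem polw_bound (G Q s k w u1 R1 u2 R2 u3 R3 u4 R4 a1 a2 a3 a4 : ℝ) (hG : 1 ≤ G) (hQ : 1 ≤ Q)
    (hw0 : 0 ≤ w) (hw : w ≤ G * Q ^ 4)
    (hs0 : 0 < s) (hs : s ≤ 2 * G * Q ^ 2) (hk : |k| ≤ 1 / Q ^ 6)
    (b1 : |u1| ≤ a1 / Q) (c1 : |R1| ≤ a1 * Q) (b2 : |u2| ≤ a2 / Q) (c2 : |R2| ≤ a2 * Q)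
    (b3 : |u3| ≤ a3 / Q) (c3 : |R3| ≤ a3 * Q) (b4 : |u4| ≤ a4 / Q) (c4 : |R4| ≤ a4 * Q) :
    |polw w s k u1 R1 u2 R2 u3 R3 u4 R4| ≤ 33 * G * (a1 * a2 * a3 * a4) := by
  have hQ0 : 0 < Q := by linarith
  have hpos : ∀ {a R : ℝ}, |R| ≤ a * Q → 0 ≤ a := by
    intro a R h
    by_contra hc
    push Not at hc
    have := abs_nonneg R
    nlinarith
  have p1 := hpos c1
  have p2 := hpos c2
  have p3 := hpos c3
  have p4 := hpos c4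
  have hP : ∀ {a u R : ℝ}, 0 ≤ a → |u| ≤ a / Q → |R| ≤ a * Q →
      |w * u + s * R| ≤ 3 * G * Q ^ 3 * a := by
    intro a u R ha hu hR
    calc |w * u + s * R| ≤ |w * u| + |s * R| := abs_add_le _ _
      _ = w * |u| + s * |R| := by rw [abs_mul, abs_mul, abs_of_pos hs0, abs_of_nonneg hw0]
      _ ≤ (G * Q ^ 4) * (a / Q) + (2 * G * Q ^ 2) * (a * Q) := by gcongr
      _ = 3 * G * Q ^ 3 * a := by field_simp; ring
  have P1 := hP p1 b1 c1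
  have P2 := hP p2 b2 c2
  have P3 := hP p3 b3 c3
  have P4 := hP p4 b4 c4
  set A := a1 * a2 * a3 * a4 with hA
  have hA0 : 0 ≤ A := by positivity
  have t0 : |w * (u1 * u2 * u3 * u4)| ≤ G * A := by
    rw [abs_mul, abs_of_nonneg hw0]
    calc w * |u1 * u2 * u3 * u4| ≤ (G * Q ^ 4) * (a1 / Q * (a2 / Q) * (a3 / Q) * (a4 / Q)) := by
          gcongr
          exact abs4 b1 b2 b3 b4
      _ = G * A := by rw [hA]; field_simp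
  have m1 : ∀ {a b c d : ℝ}, a * Q * (b / Q) * (c / Q) * (d / Q) = a * b * c * d / Q ^ 2 := by
    intro a b c d; field_simp
  have m2 : ∀ {a b c d : ℝ}, a / Q * (b * Q) * (c / Q) * (d / Q) = a * b * c * d / Q ^ 2 := by
    intro a b c d; field_simp
  have m3 : ∀ {a b c d : ℝ}, a / Q * (b / Q) * (c * Q) * (d / Q) = a * b * c * d / Q ^ 2 := by
    intro a b c d; field_simp
  have m4 : ∀ {a b c d : ℝ}, a / Q * (b / Q) * (c / Q) * (d * Q) = a * b * c * d / Q ^ 2 := by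
    intro a b c d; field_simp
  have s1 : |R1 * u2 * u3 * u4| ≤ A / Q ^ 2 := (abs4 c1 b2 b3 b4).trans (le_of_eq m1)
  have s2 : |u1 * R2 * u3 * u4| ≤ A / Q ^ 2 := (abs4 b1 c2 b3 b4).trans (le_of_eq m2)
  have s3 : |u1 * u2 * R3 * u4| ≤ A / Q ^ 2 := (abs4 b1 b2 c3 b4).trans (le_of_eq m3)
  have s4 : |u1 * u2 * u3 * R4| ≤ A / Q ^ 2 := (abs4 b1 b2 b3 c4).trans (le_of_eq m4)
  have t1 : |s * (R1 * u2 * u3 * u4 + u1 * R2 * u3 * u4 + u1 * u2 * R3 * u4 +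
      u1 * u2 * u3 * R4)| ≤ 8 * G * A := by
    rw [abs_mul, abs_of_pos hs0]
    have : |R1 * u2 * u3 * u4 + u1 * R2 * u3 * u4 + u1 * u2 * R3 * u4 + u1 * u2 * u3 * R4| ≤
        4 * (A / Q ^ 2) := by
      have h1 := abs_add_le (R1 * u2 * u3 * u4 + u1 * R2 * u3 * u4 + u1 * u2 * R3 * u4)
        (u1 * u2 * u3 * R4)
      have h2 := abs_add_le (R1 * u2 * u3 * u4 + u1 * R2 * u3 * u4) (u1 * u2 * R3 * u4)
      have h3 := abs_add_le (R1 * u2 * u3 * u4) (u1 * R2 * u3 * u4)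
      linarith
    calc s * |R1 * u2 * u3 * u4 + u1 * R2 * u3 * u4 + u1 * u2 * R3 * u4 + u1 * u2 * u3 * R4|
        ≤ (2 * G * Q ^ 2) * (4 * (A / Q ^ 2)) := by gcongr
      _ = 8 * G * A := by field_simp; ring
  have n1 : |(w * u1 + s * R1) * R2 * R3 * R4| ≤ 3 * G * A * Q ^ 6 :=
    (abs4 P1 c2 c3 c4).trans (le_of_eq (by rw [hA]; ring))
  have n2 : |R1 * (w * u2 + s * R2) * R3 * R4| ≤ 3 * G * A * Q ^ 6 :=
    (abs4 c1 P2 c3 c4).trans (le_of_eq (by rw [hA]; ring))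
  have n3 : |R1 * R2 * (w * u3 + s * R3) * R4| ≤ 3 * G * A * Q ^ 6 :=
    (abs4 c1 c2 P3 c4).trans (le_of_eq (by rw [hA]; ring))
  have n4 : |R1 * R2 * R3 * (w * u4 + s * R4)| ≤ 3 * G * A * Q ^ 6 :=
    (abs4 c1 c2 c3 P4).trans (le_of_eq (by rw [hA]; ring))
  have t2 : |2 * k * ((w * u1 + s * R1) * R2 * R3 * R4 + R1 * (w * u2 + s * R2) * R3 * R4 +
      R1 * R2 * (w * u3 + s * R3) * R4 + R1 * R2 * R3 * (w * u4 + s * R4))| ≤ 24 * G * A := by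
    rw [abs_mul, abs_mul, abs_of_pos (by norm_num : (0:ℝ) < 2)]
    have : |(w * u1 + s * R1) * R2 * R3 * R4 + R1 * (w * u2 + s * R2) * R3 * R4 +
      R1 * R2 * (w * u3 + s * R3) * R4 + R1 * R2 * R3 * (w * u4 + s * R4)| ≤
        4 * (3 * G * A * Q ^ 6) := by
      have h1 := abs_add_le ((w * u1 + s * R1) * R2 * R3 * R4 + R1 * (w * u2 + s * R2) * R3 * R4 +
        R1 * R2 * (w * u3 + s * R3) * R4) (R1 * R2 * R3 * (w * u4 + s * R4))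
      have h2 := abs_add_le ((w * u1 + s * R1) * R2 * R3 * R4 + R1 * (w * u2 + s * R2) * R3 * R4)
        (R1 * R2 * (w * u3 + s * R3) * R4)
      have h3 := abs_add_le ((w * u1 + s * R1) * R2 * R3 * R4) (R1 * (w * u2 + s * R2) * R3 * R4)
      linarith
    calc 2 * |k| * |(w * u1 + s * R1) * R2 * R3 * R4 + R1 * (w * u2 + s * R2) * R3 * R4 +
          R1 * R2 * (w * u3 + s * R3) * R4 + R1 * R2 * R3 * (w * u4 + s * R4)|
        ≤ 2 * (1 / Q ^ 6) * (4 * (3 * G * A * Q ^ 6)) := by gcongr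
      _ = 24 * G * A := by field_simp; ring
  unfold polw
  have h1 := abs_add_le (w * (u1 * u2 * u3 * u4) + s * (R1 * u2 * u3 * u4 + u1 * R2 * u3 * u4 +
    u1 * u2 * R3 * u4 + u1 * u2 * u3 * R4)) (2 * k * ((w * u1 + s * R1) * R2 * R3 * R4 +
    R1 * (w * u2 + s * R2) * R3 * R4 + R1 * R2 * (w * u3 + s * R3) * R4 +
    R1 * R2 * R3 * (w * u4 + s * R4)))
  have h2 := abs_add_le (w * (u1 * u2 * u3 * u4)) (s * (R1 * u2 * u3 * u4 + u1 * R2 * u3 * u4 +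
    u1 * u2 * R3 * u4 + u1 * u2 * u3 * R4))
  linarith

/-- the region -/
structure Qg (G Q W : ℝ) (x y w t a b c : ℤ) : Prop where
  hG : 1 ≤ G
  hQ : 6 ≤ Q
  hW : 10 * W ≤ G * Q ^ 4
  s1 : G * Q ^ 2 ≤ √(x : ℝ)
  s2 : √(x : ℝ) ≤ 2 * G * Q ^ 2
  y0 : 0 < y
  ne : x ^ 3 ≠ y ^ 2
  w1 : 1 ≤ w
  wW : (w : ℝ) ≤ W
  k : |(x : ℝ) ^ 3 - (y : ℝ) ^ 2| ≤ G ^ 3 * (w : ℝ) ^ 3
  ha : w * a = t ^ 2 - x
  hb : w ^ 2 * b = t ^ 3 - 3 * x * t + 2 * y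
  hc : w ^ 3 * c = t ^ 4 - 6 * x * t ^ 2 + 8 * y * t - 3 * x ^ 2

section
variable {G Q W : ℝ} {x y w t a b c : ℤ}

theorem Qg.spos (hr : Qg G Q W x y w t a b c) : 0 < √(x : ℝ) := by
  have := hr.s1
  have := hr.hG
  have := hr.hQ
  have : 0 < G * Q ^ 2 := by positivity
  linarith

theorem Qg.xpos (hr : Qg G Q W x y w t a b c) : (0 : ℝ) < x := Real.sqrt_pos.mp hr.spos

theorem Qg.ssq (hr : Qg G Q W x y w t a b c) : √(x : ℝ) ^ 2 = x := Real.sq_sqrt hr.xpos.le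

theorem Qg.wR (hr : Qg G Q W x y w t a b c) : (1 : ℝ) ≤ w := by exact_mod_cast hr.w1

theorem Qg.kap (hr : Qg G Q W x y w t a b c) :
    |((y : ℝ) - √(x : ℝ) ^ 3) / (w : ℝ) ^ 3| ≤ 1 / Q ^ 6 := by
  have hs := hr.spos
  have hss := hr.ssq
  have hw := hr.wR
  have hw0 : (0 : ℝ) < w := by linarith
  set s := √(x : ℝ) with hsdef
  have hG := hr.hG
  have hQ := hr.hQ
  have hG0 : 0 < G := by linarith
  have hQ0 : 0 < Q := by linarith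
  have hy : (0 : ℝ) < y := by exact_mod_cast hr.y0
  have h1 : |(y : ℝ) - s ^ 3| * (y + s ^ 3) ≤ G ^ 3 * (w : ℝ) ^ 3 := by
    have : (x : ℝ) ^ 3 - (y : ℝ) ^ 2 = -(((y : ℝ) - s ^ 3) * (y + s ^ 3)) := by
      rw [← hss]; ring
    have h := hr.k
    rw [this, abs_neg, abs_mul, abs_of_pos (by positivity : (0:ℝ) < y + s ^ 3)] at h
    exact h
  have h2 : (G * Q ^ 2) ^ 3 ≤ s ^ 3 := by
    have := hr.s1
    gcongr
  have h3 : |(y : ℝ) - s ^ 3| * (G * Q ^ 2) ^ 3 ≤ G ^ 3 * (w : ℝ) ^ 3 := by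
    refine le_trans ?_ h1
    gcongr
    linarith
  rw [abs_div, abs_of_pos (by positivity : (0:ℝ) < (w : ℝ) ^ 3), div_le_div_iff₀ (by positivity)
    (by positivity)]
  have h4 : |(y : ℝ) - s ^ 3| * Q ^ 6 * G ^ 3 ≤ 1 * (w : ℝ) ^ 3 * G ^ 3 := by
    calc |(y : ℝ) - s ^ 3| * Q ^ 6 * G ^ 3 = |(y : ℝ) - s ^ 3| * (G * Q ^ 2) ^ 3 := by ring
      _ ≤ G ^ 3 * (w : ℝ) ^ 3 := h3
      _ = 1 * (w : ℝ) ^ 3 * G ^ 3 := by ring
  exact le_of_mul_le_mul_right h4 (by positivity)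

theorem Qg.wQ (hr : Qg G Q W x y w t a b c) : (w : ℝ) ≤ G * Q ^ 4 := by
  have h1 := hr.wW
  have h2 := hr.hW
  have hw := hr.wR
  linarith

theorem gen (hr : Qg G Q W x y w t a b c) {a1 a2 a3 a4 P1 P2 P3 P4 R1 R2 R3 R4 H : ℝ}
    (b1 : |(P1 : ℝ) - R1 * ((√(x : ℝ) - t) / w)| ≤ a1 / Q) (c1 : |R1| ≤ a1 * Q)
    (b2 : |(P2 : ℝ) - R2 * ((√(x : ℝ) - t) / w)| ≤ a2 / Q) (c2 : |R2| ≤ a2 * Q)
    (b3 : |(P3 : ℝ) - R3 * ((√(x : ℝ) - t) / w)| ≤ a3 / Q) (c3 : |R3| ≤ a3 * Q)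
    (b4 : |(P4 : ℝ) - R4 * ((√(x : ℝ) - t) / w)| ≤ a4 / Q) (c4 : |R4| ≤ a4 * Q)
    (hH : (w : ℝ) ^ 3 * H = pol (√(x : ℝ)) (y - √(x : ℝ) ^ 3)
      ((w * P1 + t * R1) - R1 * √(x : ℝ)) R1 ((w * P2 + t * R2) - R2 * √(x : ℝ)) R2
      ((w * P3 + t * R3) - R3 * √(x : ℝ)) R3 ((w * P4 + t * R4) - R4 * √(x : ℝ)) R4) :
    |H| ≤ 33 * G * (a1 * a2 * a3 * a4) := by
  have hw0 : (0 : ℝ) < w := by linarith [hr.wR]
  have key : H = polw w (√(x : ℝ)) ((y - √(x : ℝ) ^ 3) / (w : ℝ) ^ 3)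
      (P1 - R1 * ((√(x : ℝ) - t) / w)) R1 (P2 - R2 * ((√(x : ℝ) - t) / w)) R2
      (P3 - R3 * ((√(x : ℝ) - t) / w)) R3 (P4 - R4 * ((√(x : ℝ) - t) / w)) R4 := by
    have hw3 : (w : ℝ) ^ 3 ≠ 0 := by positivity
    apply mul_left_cancel₀ hw3
    rw [hH]
    unfold pol polw
    generalize √(x : ℝ) = s
    field_simp
    ring
  rw [key]
  exact polw_bound G Q _ _ w _ _ _ _ _ _ _ _ _ _ _ _ hr.hG (by linarith [hr.hQ]) hw0.le hr.wQ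
    hr.spos hr.s2 hr.kap b1 c1 b2 c2 b3 c3 b4 c4

theorem xy_eq' (hr : Qg G Q W x y w t a b c) : (x : ℝ) = √(x:ℝ) ^ 2 := hr.ssq.symm

variable {l : ℝ} {p q p' q' : ℤ}

theorem bb1 (hQ0 : 0 < Q) (hl : 0 < l) {z : ℝ} (hd : Red z Q l p q p' q') :
    |(p : ℝ) - q * z| ≤ (1 / l) / Q := hd.h1.trans (le_of_eq (by field_simp))

theorem cc1 {z : ℝ} (hd : Red z Q l p q p' q') :
    |(q : ℝ)| ≤ (1 / l) * Q := hd.h2.trans (le_of_eq (by ring))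

theorem h0_bd (hr : Qg G Q W x y w t a b c) (hl : 0 < l)
    (hd : Red ((√(x : ℝ) - t) / w) Q l p q p' q') :
    |((h0 w t a b c p q : ℤ) : ℝ)| ≤ 33 * G / l ^ 4 := by
  have hQ0 : 0 < Q := by linarith [hr.hQ]
  have b1 := bb1 hQ0 hl hd
  have c1 := cc1 hd
  have e : (w : ℝ) ^ 3 * ((h0 w t a b c p q : ℤ) : ℝ) = G0 (x : ℝ) y (w * p + t * q) q := by
    have h := h0_G x y w t a b c p q hr.ha hr.hb hr.hc
    have h3 : ((w ^ 3 * h0 w t a b c p q : ℤ) : ℝ) = ((G0 x y (w * p + t * q) q : ℤ) : ℝ) := by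
      rw [h]
    rw [G0_cast] at h3
    push_cast at h3
    exact h3
  have e2 : G0 (x : ℝ) y ((w : ℝ) * p + t * q) q = G0 (√(x:ℝ) ^ 2) (√(x:ℝ) ^ 3 +
      (y - √(x:ℝ) ^ 3)) ((w : ℝ) * p + t * q) q := by
    rw [← xy_eq' hr]; congr 1; ring
  rw [e2, G0_pol] at e
  refine (gen hr b1 c1 b1 c1 b1 c1 b1 c1 e).trans (le_of_eq ?_)
  field_simp

theorem h1_bd (hr : Qg G Q W x y w t a b c) (hl : 0 < l)
    (hd : Red ((√(x : ℝ) - t) / w) Q l p q p' q') :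
    |((h1 w t a b c p q p' q' : ℤ) : ℝ)| ≤ 66 * G / l ^ 2 := by
  have hQ0 : 0 < Q := by linarith [hr.hQ]
  have b1 := bb1 hQ0 hl hd
  have c1 := cc1 hd
  have e : (w : ℝ) ^ 3 * ((h1 w t a b c p q p' q' : ℤ) : ℝ) =
      G1 (x : ℝ) y (w * p + t * q) q (w * p' + t * q') q' := by
    have h := h1_G x y w t a b c p q p' q' hr.ha hr.hb hr.hc
    have h3 : ((w ^ 3 * h1 w t a b c p q p' q' : ℤ) : ℝ) =
        ((G1 x y (w * p + t * q) q (w * p' + t * q') q' : ℤ) : ℝ) := by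
      rw [h]
    rw [G1_cast] at h3
    push_cast at h3
    exact h3
  have e2 : G1 (x : ℝ) y ((w : ℝ) * p + t * q) q (w * p' + t * q') q' =
      G1 (√(x:ℝ) ^ 2) (√(x:ℝ) ^ 3 + (y - √(x:ℝ) ^ 3)) ((w : ℝ) * p + t * q) q
        (w * p' + t * q') q' := by
    rw [← xy_eq' hr]; congr 1; ring
  rw [e2, G1_pol] at e
  refine (gen hr b1 c1 b1 c1 b1 c1 hd.h3 hd.h4 e).trans (le_of_eq ?_)
  field_simp; ring

theorem h2_bd (hr : Qg G Q W x y w t a b c) (hl : 0 < l)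
    (hd : Red ((√(x : ℝ) - t) / w) Q l p q p' q') :
    |((h2 w t a b c p q p' q' : ℤ) : ℝ)| ≤ 132 * G := by
  have hQ0 : 0 < Q := by linarith [hr.hQ]
  have b1 := bb1 hQ0 hl hd
  have c1 := cc1 hd
  have e : (w : ℝ) ^ 3 * ((h2 w t a b c p q p' q' : ℤ) : ℝ) =
      G2 (x : ℝ) y (w * p + t * q) q (w * p' + t * q') q' := by
    have h := h2_G x y w t a b c p q p' q' hr.ha hr.hb hr.hc
    have h3 : ((w ^ 3 * h2 w t a b c p q p' q' : ℤ) : ℝ) =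
        ((G2 x y (w * p + t * q) q (w * p' + t * q') q' : ℤ) : ℝ) := by
      rw [h]
    rw [G2_cast] at h3
    push_cast at h3
    exact h3
  have e2 : G2 (x : ℝ) y ((w : ℝ) * p + t * q) q (w * p' + t * q') q' =
      G2 (√(x:ℝ) ^ 2) (√(x:ℝ) ^ 3 + (y - √(x:ℝ) ^ 3)) ((w : ℝ) * p + t * q) q
        (w * p' + t * q') q' := by
    rw [← xy_eq' hr]; congr 1; ring
  rw [e2, G2_pol] at e
  refine (gen hr b1 c1 b1 c1 hd.h3 hd.h4 hd.h3 hd.h4 e).trans (le_of_eq ?_)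
  field_simp; ring

theorem h3_bd (hr : Qg G Q W x y w t a b c) (hl : 0 < l)
    (hd : Red ((√(x : ℝ) - t) / w) Q l p q p' q') :
    |((h1 w t a b c p' q' p q : ℤ) : ℝ)| ≤ 264 * G * l ^ 2 := by
  have hQ0 : 0 < Q := by linarith [hr.hQ]
  have b1 := bb1 hQ0 hl hd
  have c1 := cc1 hd
  have e : (w : ℝ) ^ 3 * ((h1 w t a b c p' q' p q : ℤ) : ℝ) =
      G1 (x : ℝ) y (w * p' + t * q') q' (w * p + t * q) q := by
    have h := h1_G x y w t a b c p' q' p q hr.ha hr.hb hr.hc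
    have h3 : ((w ^ 3 * h1 w t a b c p' q' p q : ℤ) : ℝ) =
        ((G1 x y (w * p' + t * q') q' (w * p + t * q) q : ℤ) : ℝ) := by
      rw [h]
    rw [G1_cast] at h3
    push_cast at h3
    exact h3
  have e2 : G1 (x : ℝ) y ((w : ℝ) * p' + t * q') q' (w * p + t * q) q =
      G1 (√(x:ℝ) ^ 2) (√(x:ℝ) ^ 3 + (y - √(x:ℝ) ^ 3)) ((w : ℝ) * p' + t * q') q'
        (w * p + t * q) q := by
    rw [← xy_eq' hr]; congr 1; ring
  rw [e2, G1_pol] at e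
  refine (gen hr hd.h3 hd.h4 hd.h3 hd.h4 hd.h3 hd.h4 b1 c1 e).trans (le_of_eq ?_)
  field_simp; ring

end

end Pool.Agent.Zk16.Q
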