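import Pool.Agent.Zk16.Q.B

/-! Binary quartic forms with first coefficient `w`: the points attached to one form. -/

set_option autoImplicit false

open Finset

namespace Pool.Agent.Zk16.Q

open Pool.Agent.H925R.Hall Pool.Agent.R418.C5

/-- bounds for the solution of a perturbed equation -/
theorem u_bounds (u e1 e2 r : ℝ) (h1 : |e1| ≤ 1 / 10000) (h2 : |e2| ≤ 1 / 10000)
    (hr1 : 1 / 4 ≤ r) (hr2 : r ≤ 4) (h : r = u ^ 4 + 6 * e1 * u ^ 2 + 8 * e2 * u - 3 * e1 ^ 2) :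
    |u| ≤ 3 / 2 ∧ 7 / 10 ≤ |u| := by
  obtain ⟨a1, a2⟩ := abs_le.mp h1
  obtain ⟨b1, b2⟩ := abs_le.mp h2
  set v := |u| with hv
  have hv0 : 0 ≤ v := abs_nonneg u
  have hu2 : u ^ 2 = v ^ 2 := (sq_abs u).symm
  have hu4 : u ^ 4 = v ^ 4 := by
    calc u ^ 4 = (u ^ 2) ^ 2 := by ring
      _ = v ^ 4 := by rw [hu2]; ring
  have he1 : |e1 * u ^ 2| ≤ 1 / 10000 * v ^ 2 := by
    rw [abs_mul, abs_of_nonneg (sq_nonneg u), hu2]
    gcongr
  have he2 : |e2 * u| ≤ 1 / 10000 * v := by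
    rw [abs_mul]
    gcongr
  obtain ⟨c1, c2⟩ := abs_le.mp he1
  obtain ⟨d1, d2⟩ := abs_le.mp he2
  have he3 : e1 ^ 2 ≤ 1 / 1000 := by nlinarith
  constructor
  · by_contra hc
    push Not at hc
    have k1 : (9 : ℝ) / 4 ≤ v ^ 2 := by nlinarith
    have k2 : v ≤ v ^ 2 := by nlinarith
    have k3 : v ^ 2 * (9 / 4) ≤ v ^ 4 := by
      have : v ^ 4 = v ^ 2 * v ^ 2 := by ring
      rw [this]; gcongr
    nlinarith
  · by_contra hc
    push Not at hc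
    have k1 : v ^ 2 ≤ 49 / 100 := by nlinarith
    have k2 : v ^ 4 ≤ (49 / 100) ^ 2 := by
      have : v ^ 4 = (v ^ 2) ^ 2 := by ring
      rw [this]
      gcongr
    nlinarith [sq_nonneg e1]

/-- the real estimate for two representations by the same form -/
theorem pair_real4 (X x x1 y w w1 W P δ G : ℝ) (hX : 0 < X) (hx1 : X ≤ x) (hx2 : x ≤ 4 * X)
    (hy1 : X ≤ x1) (hy2 : x1 ≤ 4 * X) (hy : 0 < y) (hw : 0 < w) (hwW : w ≤ W)
    (hw1 : 0 ≤ w1) (hw1W : w1 ≤ W) (hG : 0 < G) (hk : |x ^ 3 - y ^ 2| ≤ G ^ 3 * w ^ 3)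
    (hδ : G ^ 2 * δ ^ 2 ≤ 9 / 10000 * X) (hGW : 10 * (G * W) ≤ X)
    (I1 : w ^ 3 * w1 = P ^ 4 - 6 * x * P ^ 2 * δ ^ 2 + 8 * y * P * δ ^ 3 - 3 * x ^ 2 * δ ^ 4)
    (I2 : w ^ 4 * x1 = x * P ^ 4 - 4 * y * P ^ 3 * δ + 6 * x ^ 2 * P ^ 2 * δ ^ 2
      - 4 * x * y * P * δ ^ 3 + (4 * y ^ 2 - 3 * x ^ 3) * δ ^ 4) :
    |δ| * √X ≤ 5 * W ∧ |P - y / x * δ| ≤ 3 / 2 * w := by
  have hx0 : 0 < x := by linarith
  have hW0 : 0 < W := by linarith
  set β := y / x with hβ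
  have hβ0 : 0 < β := by positivity
  have hyβ : y = β * x := by rw [hβ]; field_simp
  set κ := x - β ^ 2 with hκ
  have hk' : x ^ 3 - y ^ 2 = x ^ 2 * κ := by rw [hyβ, hκ]; ring
  rw [hk', abs_mul, abs_of_pos (by positivity : 0 < x ^ 2)] at hk
  -- `|κ| ≤ x / 1000`
  have hGW3 : (G * W) ^ 3 ≤ X ^ 3 / 1000 := by
    have h1 : (10 * (G * W)) ^ 3 ≤ X ^ 3 := by gcongr
    nlinarith
  have hκx : |κ| ≤ x / 1000 := by
    have h1 : x ^ 2 * |κ| ≤ x ^ 2 * (x / 1000) := by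
      calc x ^ 2 * |κ| ≤ G ^ 3 * w ^ 3 := hk
        _ ≤ G ^ 3 * W ^ 3 := by gcongr
        _ = (G * W) ^ 3 := by ring
        _ ≤ X ^ 3 / 1000 := hGW3
        _ ≤ x ^ 3 / 1000 := by gcongr
        _ = x ^ 2 * (x / 1000) := by ring
    exact le_of_mul_le_mul_left h1 (by positivity)
  obtain ⟨hκ1, hκ2⟩ := abs_le.mp hκx
  have hβ2 : β ^ 2 ≤ 1001 / 1000 * x := by linarith
  have hβ1 : 999 / 1000 * x ≤ β ^ 2 := by linarith
  set e1 := κ * δ ^ 2 / w ^ 2 with he1d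
  set e2 := κ * β * δ ^ 3 / w ^ 3 with he2d
  have hx2 : X ^ 2 ≤ x ^ 2 := by gcongr
  have hx3 : X ^ 3 ≤ x ^ 3 := by gcongr
  have he1 : |e1| ≤ 1 / 10000 := by
    rw [he1d, abs_div, abs_mul, abs_of_nonneg (sq_nonneg δ), abs_of_pos (by positivity : 0 < w ^ 2),
      div_le_iff₀ (by positivity)]
    have h1 : x ^ 2 * (|κ| * δ ^ 2) ≤ x ^ 2 * (1 / 10000 * w ^ 2) := by
      calc x ^ 2 * (|κ| * δ ^ 2) = (x ^ 2 * |κ|) * δ ^ 2 := by ring
        _ ≤ (G ^ 3 * w ^ 3) * δ ^ 2 := by gcongr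
        _ = (G ^ 2 * δ ^ 2) * (G * w) * w ^ 2 := by ring
        _ ≤ (9 / 10000 * X) * (G * W) * w ^ 2 :=
            mul_le_mul_of_nonneg_right (mul_le_mul hδ (mul_le_mul_of_nonneg_left hwW hG.le)
              (by positivity) (by positivity)) (by positivity)
        _ ≤ (9 / 10000 * X) * (X / 10) * w ^ 2 :=
            mul_le_mul_of_nonneg_right (mul_le_mul_of_nonneg_left (by linarith) (by positivity))
              (by positivity)
        _ = 9 / 100000 * X ^ 2 * w ^ 2 := by ring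
        _ ≤ 1 / 10000 * X ^ 2 * w ^ 2 := by
            have : 0 ≤ X ^ 2 * w ^ 2 := by positivity
            nlinarith
        _ ≤ 1 / 10000 * x ^ 2 * w ^ 2 := by gcongr
        _ = x ^ 2 * (1 / 10000 * w ^ 2) := by ring
    exact le_of_mul_le_mul_left h1 (by positivity)
  have he2 : |e2| ≤ 1 / 10000 := by
    apply abs_le_of_sq_le_sq _ (by norm_num)
    have e : e2 ^ 2 = κ ^ 2 * β ^ 2 * δ ^ 6 / w ^ 6 := by rw [he2d]; field_simp
    rw [e, div_le_iff₀ (by positivity)]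
    have h0 : x ^ 4 * κ ^ 2 ≤ G ^ 6 * w ^ 6 := by
      calc x ^ 4 * κ ^ 2 = (x ^ 2 * |κ|) ^ 2 := by rw [mul_pow, sq_abs]; ring
        _ ≤ (G ^ 3 * w ^ 3) ^ 2 := by gcongr
        _ = _ := by ring
    have h1 : x ^ 4 * (κ ^ 2 * β ^ 2 * δ ^ 6) ≤ x ^ 4 * ((1 / 10000) ^ 2 * w ^ 6) := by
      calc x ^ 4 * (κ ^ 2 * β ^ 2 * δ ^ 6) = (x ^ 4 * κ ^ 2) * β ^ 2 * δ ^ 6 := by ring
        _ ≤ (G ^ 6 * w ^ 6) * (1001 / 1000 * x) * δ ^ 6 := by gcongr
        _ = (G ^ 2 * δ ^ 2) ^ 3 * (1001 / 1000 * x) * w ^ 6 := by ring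
        _ ≤ (9 / 10000 * X) ^ 3 * (1001 / 1000 * x) * w ^ 6 :=
            mul_le_mul_of_nonneg_right (mul_le_mul_of_nonneg_right
              (pow_le_pow_left₀ (by positivity) hδ 3) (by positivity)) (by positivity)
        _ = (9 / 10000) ^ 3 * (1001 / 1000) * (X ^ 3 * x) * w ^ 6 := by ring
        _ ≤ (9 / 10000) ^ 3 * (1001 / 1000) * (x ^ 3 * x) * w ^ 6 := by gcongr
        _ = ((9 / 10000) ^ 3 * (1001 / 1000)) * (x ^ 4 * w ^ 6) := by ring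
        _ ≤ (1 / 10000) ^ 2 * (x ^ 4 * w ^ 6) :=
            mul_le_mul_of_nonneg_right (by norm_num) (by positivity)
        _ = _ := by ring
    exact le_of_mul_le_mul_left h1 (by positivity)
  set η := P - β * δ with hη
  set u := η / w with hu
  set D := β * δ / w with hD
  have hηu : η = w * u := by rw [hu]; field_simp
  have hδD : β * δ = w * D := by rw [hD]; field_simp
  have J2 : x1 / x = u ^ 4 + 6 * e1 * u ^ 2 + 8 * e2 * u - 3 * e1 ^ 2 := by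
    have h1 : w ^ 4 * x1 = x * (η ^ 4 + 6 * κ * η ^ 2 * δ ^ 2 + 8 * β * κ * η * δ ^ 3
        - 3 * κ ^ 2 * δ ^ 4) := by
      rw [I2, hη, hκ, hyβ]; ring
    have h2 : x1 / x = (η ^ 4 + 6 * κ * η ^ 2 * δ ^ 2 + 8 * β * κ * η * δ ^ 3
        - 3 * κ ^ 2 * δ ^ 4) / w ^ 4 := by
      rw [div_eq_div_iff (by positivity) (by positivity)]
      linarith
    rw [h2, he1d, he2d, hu]
    field_simp
  have J1 : w1 / w = u ^ 4 + 4 * D * u ^ 3 - 6 * e1 * u ^ 2 - 4 * e2 * u - 4 * e2 * D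
      - 3 * e1 ^ 2 := by
    have h1 : w ^ 3 * w1 = η ^ 4 + 4 * β * δ * η ^ 3 - 6 * κ * δ ^ 2 * η ^ 2
        - 4 * β * κ * δ ^ 3 * η - κ * (4 * β ^ 2 + 3 * κ) * δ ^ 4 := by
      rw [I1, hη, hκ, hyβ]; ring
    have h2 : w1 / w = (η ^ 4 + 4 * β * δ * η ^ 3 - 6 * κ * δ ^ 2 * η ^ 2
        - 4 * β * κ * δ ^ 3 * η - κ * (4 * β ^ 2 + 3 * κ) * δ ^ 4) / w ^ 4 := by
      rw [div_eq_div_iff (by positivity) (by positivity)]
      linear_combination w * h1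
    rw [h2, he1d, he2d, hu, hD]
    field_simp
    ring
  have hr1 : 1 / 4 ≤ x1 / x := by rw [le_div_iff₀ hx0]; linarith
  have hr2 : x1 / x ≤ 4 := by rw [div_le_iff₀ hx0]; linarith
  obtain ⟨hu1, hu2⟩ := u_bounds u e1 e2 (x1 / x) he1 he2 hr1 hr2 J2
  refine ⟨?_, ?_⟩
  · -- the bound for `D`
    have hu0 : 0 ≤ |u| := abs_nonneg u
    have hD0 : 0 ≤ |D| := abs_nonneg D
    have k1 : |4 * D * u ^ 3| = 4 * |D| * |u| ^ 3 := by
      rw [abs_mul, abs_mul, abs_pow]; norm_num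
    have k2 : 4 * D * u ^ 3 = w1 / w - u ^ 4 + 6 * e1 * u ^ 2 + 4 * e2 * u + 4 * e2 * D
        + 3 * e1 ^ 2 := by linarith
    have hr0 : 0 ≤ w1 / w := by positivity
    have k3 : 4 * |D| * |u| ^ 3 ≤ w1 / w + |u| ^ 4 + 6 * (|e1| * |u| ^ 2) + 4 * (|e2| * |u|) +
        4 * (|e2| * |D|) + 3 * |e1| ^ 2 := by
      rw [← k1, k2]
      have a1 := abs_add_le (w1 / w - u ^ 4 + 6 * e1 * u ^ 2 + 4 * e2 * u + 4 * e2 * D)
        (3 * e1 ^ 2)
      have a2 := abs_add_le (w1 / w - u ^ 4 + 6 * e1 * u ^ 2 + 4 * e2 * u) (4 * e2 * D)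
      have a3 := abs_add_le (w1 / w - u ^ 4 + 6 * e1 * u ^ 2) (4 * e2 * u)
      have a4 := abs_add_le (w1 / w - u ^ 4) (6 * e1 * u ^ 2)
      have a5 := abs_sub (w1 / w) (u ^ 4)
      have b1 : |3 * e1 ^ 2| = 3 * |e1| ^ 2 := by rw [abs_mul, abs_pow]; norm_num
      have b2 : |4 * e2 * D| = 4 * (|e2| * |D|) := by rw [abs_mul, abs_mul]; norm_num; ring
      have b3 : |4 * e2 * u| = 4 * (|e2| * |u|) := by rw [abs_mul, abs_mul]; norm_num; ring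
      have b4 : |6 * e1 * u ^ 2| = 6 * (|e1| * |u| ^ 2) := by
        rw [abs_mul, abs_mul, abs_pow]; norm_num; ring
      have b5 : |u ^ 4| = |u| ^ 4 := abs_pow u 4
      have b6 : |w1 / w| = w1 / w := abs_of_nonneg hr0
      linarith
    have m1 : |u| ^ 4 ≤ 51 / 10 := by
      calc |u| ^ 4 ≤ (3 / 2) ^ 4 := by gcongr
        _ ≤ 51 / 10 := by norm_num
    have m2 : |e1| * |u| ^ 2 ≤ 1 / 1000 := by
      calc |e1| * |u| ^ 2 ≤ 1 / 10000 * (3 / 2) ^ 2 := by gcongr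
        _ ≤ 1 / 1000 := by norm_num
    have m3 : |e2| * |u| ≤ 1 / 1000 := by
      calc |e2| * |u| ≤ 1 / 10000 * (3 / 2) := by gcongr
        _ ≤ 1 / 1000 := by norm_num
    have m4 : |e2| * |D| ≤ 1 / 10000 * |D| := by gcongr
    have m5 : |e1| ^ 2 ≤ 1 / 1000 := by
      calc |e1| ^ 2 ≤ (1 / 10000) ^ 2 := by gcongr
        _ ≤ 1 / 1000 := by norm_num
    have m6 : (343 : ℝ) / 1000 ≤ |u| ^ 3 := by
      calc (343 : ℝ) / 1000 = (7 / 10) ^ 3 := by norm_num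
        _ ≤ |u| ^ 3 := by gcongr
    have m7 : 4 * |D| * (343 / 1000) ≤ 4 * |D| * |u| ^ 3 := by gcongr
    have m8 : |D| ≤ w1 / w + 39 / 10 := by linarith
    have m9 : |β * δ| ≤ 49 / 10 * W := by
      rw [hδD, abs_mul, abs_of_pos hw]
      calc w * |D| ≤ w * (w1 / w + 39 / 10) := by gcongr
        _ = w1 + 39 / 10 * w := by field_simp
        _ ≤ W + 39 / 10 * W := by linarith
        _ = 49 / 10 * W := by ring
    have hfin : (|δ| * √X) ^ 2 ≤ (5 * W) ^ 2 := by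
      have n1 : (β * δ) ^ 2 ≤ (49 / 10 * W) ^ 2 := by
        rw [← sq_abs]; gcongr
      have n2 : (|δ| * √X) ^ 2 = δ ^ 2 * X := by
        rw [mul_pow, sq_abs, Real.sq_sqrt hX.le]
      rw [n2]
      have n3 : δ ^ 2 * (999 / 1000 * X) ≤ δ ^ 2 * β ^ 2 := by
        gcongr
        linarith
      have n4 : 0 ≤ W ^ 2 := sq_nonneg W
      have n5 : (49 / 10 * W) ^ 2 = 2401 / 100 * W ^ 2 := by ring
      have n6 : (β * δ) ^ 2 = δ ^ 2 * β ^ 2 := by ring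
      have n7 : (5 * W) ^ 2 = 25 * W ^ 2 := by ring
      rw [n5, n6] at n1
      rw [n7]
      linarith
    exact (abs_le_of_sq_le_sq' hfin (by positivity)).2
  · rw [hηu, abs_mul, abs_of_pos hw]
    calc w * |u| ≤ w * (3 / 2) := by gcongr
      _ = 3 / 2 * w := by ring

section
variable {Q : ℝ} {w t : ℤ × ℤ → ℤ} (T : Sys3 Q w t) (a b c : ℤ × ℤ → ℤ)

def k0 (e : ℤ × ℤ) : ℤ := h0 (w e) (t e) (a e) (b e) (c e) (T.p e) (T.q e)
def k1 (e : ℤ × ℤ) : ℤ := h1 (w e) (t e) (a e) (b e) (c e) (T.p e) (T.q e) (T.p' e) (T.q' e)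
def k2 (e : ℤ × ℤ) : ℤ := h2 (w e) (t e) (a e) (b e) (c e) (T.p e) (T.q e) (T.p' e) (T.q' e)
def k3 (e : ℤ × ℤ) : ℤ := h1 (w e) (t e) (a e) (b e) (c e) (T.p' e) (T.q' e) (T.p e) (T.q e)
def k4 (e : ℤ × ℤ) : ℤ := h0 (w e) (t e) (a e) (b e) (c e) (T.p' e) (T.q' e)

theorem vals4 {G W : ℝ} (e : ℤ × ℤ) (hr : Qg G Q W e.1 e.2 (w e) (t e) (a e) (b e) (c e)) :
    V4 (k0 T a b c e) (k1 T a b c e) (k2 T a b c e) (k3 T a b c e) (k4 T a b c e)
      (T.q e) (T.q' e) = w e ∧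
    Hs4 (k0 T a b c e) (k1 T a b c e) (k2 T a b c e) (k3 T a b c e) (k4 T a b c e)
      (T.q e) (T.q' e) = e.1 ∧
    (w e) ^ 3 * J4 (k0 T a b c e) (k1 T a b c e) (k2 T a b c e) (k3 T a b c e) (k4 T a b c e) =
      4 * (e.1 ^ 3 - e.2 ^ 2) ∧
    I4 (k0 T a b c e) (k1 T a b c e) (k2 T a b c e) (k3 T a b c e) (k4 T a b c e) = 0 := by
  have hdet := (T.red e).det
  have e1 : T.q' e * T.p e - T.q e * T.p' e = 1 := by linear_combination hdet
  have e2 : T.q' e * T.q e - T.q e * T.q' e = 0 := by ring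
  have hw : w e ≠ 0 := by have := hr.w1; omega
  refine ⟨?_, ?_, ?_, ?_⟩
  · unfold k0 k1 k2 k3 k4
    rw [V4_h, e1, e2]; unfold h0; ring
  · unfold k0 k1 k2 k3 k4
    rw [Hs4_h, hdet, e1, e2, neg_zero, Hs4_00]
    linear_combination -hr.ha
  · unfold k0 k1 k2 k3 k4
    rw [J4_h, hdet]
    have := J4_0 e.1 e.2 (w e) (t e) (a e) (b e) (c e) hr.ha hr.hb hr.hc
    linear_combination this
  · unfold k0 k1 k2 k3 k4
    rw [I4_h, hdet]
    have := I4_0 e.1 e.2 (w e) (t e) (a e) (b e) (c e) hr.ha hr.hb hr.hc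
    rcases mul_eq_zero.mp this with h | h
    · exact absurd h (pow_ne_zero 2 hw)
    · rw [h]; ring

theorem pair_count4 {G W : ℝ} (j : ℕ) (U : Finset (ℤ × ℤ))
    (hr : ∀ e ∈ U, Qg G Q W e.1 e.2 (w e) (t e) (a e) (b e) (c e)) (hj : ∀ e ∈ U, T.j e = j)
    (e0 : ℤ × ℤ) (he0 : e0 ∈ U)
    (f0 : ∀ e ∈ U, k0 T a b c e = k0 T a b c e0) (f1 : ∀ e ∈ U, k1 T a b c e = k1 T a b c e0)
    (f2 : ∀ e ∈ U, k2 T a b c e = k2 T a b c e0) (f3 : ∀ e ∈ U, k3 T a b c e = k3 T a b c e0)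
    (f4 : ∀ e ∈ U, k4 T a b c e = k4 T a b c e0)
    (hc : ∀ e ∈ U, cell T (lam j) e = cell T (lam j) e0) :
    (U.card : ℝ) ≤ 6 * (2 * (5 * W / (G * Q ^ 2)) + 1) := by
  classical
  have hr0 := hr e0 he0
  have hG := hr0.hG
  have hQ := hr0.hQ
  have hQ0 : 0 < Q := by linarith
  have hG0 : 0 < G := by linarith
  have hRQ0 : 0 < G * Q ^ 2 := by positivity
  set l := lam j with hl
  have hl0 : 0 < l := lam_pos j
  set q := T.q e0 with hq
  set q' := T.q' e0 with hq'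
  set p := T.p e0 with hp
  set p' := T.p' e0 with hp'
  have hdet : p * q' - p' * q = 1 := (T.red e0).det
  -- invariants of the pairs
  set dl : ℤ × ℤ → ℤ := fun e => T.q' e * q - T.q e * q' with hdl
  set z : ℤ × ℤ → ℤ := fun e => T.q' e * p - T.q e * p' with hz
  set X := (G * Q ^ 2) ^ 2 with hX
  have hX0 : 0 < X := by positivity
  have hsX : √X = G * Q ^ 2 := Real.sqrt_sq hRQ0.le
  have hxr : ∀ e ∈ U, X ≤ (e.1 : ℝ) ∧ (e.1 : ℝ) ≤ 4 * X := by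
    intro e he
    have hre := hr e he
    have hss := hre.ssq
    have h5 := hre.s1
    have h6 := hre.s2
    have h7 := hre.spos
    rw [← hss, hX]
    constructor
    · gcongr
    · calc √(e.1 : ℝ) ^ 2 ≤ (2 * G * Q ^ 2) ^ 2 := by gcongr
        _ = 4 * (G * Q ^ 2) ^ 2 := by ring
  have hGW : 10 * (G * W) ≤ X := by
    calc 10 * (G * W) = G * (10 * W) := by ring
      _ ≤ G * (G * Q ^ 4) := mul_le_mul_of_nonneg_left hr0.hW hG0.le
      _ = X := by rw [hX]; ring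
  have key : ∀ e ∈ U, |((dl e : ℤ) : ℝ)| * (G * Q ^ 2) ≤ 5 * W ∧
      |((z e : ℤ) : ℝ) - ((e0.2 : ℝ) / e0.1 - t e0) * (dl e : ℤ) / (w e0 : ℝ)| ≤ 3 / 2 := by
    intro e he
    have hre := hr e he
    obtain ⟨w0, w1, -, -⟩ := vals4 T a b c e hre
    rw [f0 e he, f1 e he, f2 e he, f3 e he, f4 e he] at w0 w1
    have g0 : h0 (w e0) (t e0) (a e0) (b e0) (c e0) (z e) (dl e) = w e := by
      rw [← w0]
      unfold k0 k1 k2 k3 k4
      rw [V4_h]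
    have g1 : Hs4 (w e0) (t e0) (a e0) (b e0) (c e0) (-(dl e)) (z e) = e.1 := by
      rw [← w1]
      unfold k0 k1 k2 k3 k4
      rw [Hs4_h, hdet, one_pow, mul_one]
    set P := w e0 * z e + t e0 * dl e with hP
    have I1' : w e0 ^ 3 * w e = P ^ 4 - 6 * e0.1 * P ^ 2 * (dl e) ^ 2 + 8 * e0.2 * P * (dl e) ^ 3
        - 3 * e0.1 ^ 2 * (dl e) ^ 4 := by
      rw [← g0, h0_G e0.1 e0.2 _ _ _ _ _ _ _ hr0.ha hr0.hb hr0.hc]
      rfl
    have I2' : w e0 ^ 4 * e.1 = e0.1 * P ^ 4 - 4 * e0.2 * P ^ 3 * (dl e) + 6 * e0.1 ^ 2 * P ^ 2 *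
        (dl e) ^ 2 - 4 * e0.1 * e0.2 * P * (dl e) ^ 3 + (4 * e0.2 ^ 2 - 3 * e0.1 ^ 3) *
        (dl e) ^ 4 := by
      rw [← g1, Hs4_0 e0.1 e0.2 _ _ _ _ _ _ _ hr0.ha hr0.hb hr0.hc]
    have I1R : (w e0 : ℝ) ^ 3 * w e = P ^ 4 - 6 * e0.1 * P ^ 2 * (dl e : ℤ) ^ 2 +
        8 * e0.2 * P * (dl e : ℤ) ^ 3 - 3 * e0.1 ^ 2 * (dl e : ℤ) ^ 4 := by exact_mod_cast I1'
    have I2R : (w e0 : ℝ) ^ 4 * e.1 = e0.1 * P ^ 4 - 4 * e0.2 * P ^ 3 * (dl e : ℤ) +
        6 * e0.1 ^ 2 * P ^ 2 * (dl e : ℤ) ^ 2 - 4 * e0.1 * e0.2 * P * (dl e : ℤ) ^ 3 +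
        (4 * e0.2 ^ 2 - 3 * e0.1 ^ 3) * (dl e : ℤ) ^ 4 := by exact_mod_cast I2'
    -- the determinant is small
    have hdl2 : |((dl e : ℤ) : ℝ)| ≤ 3 / 100 * Q ^ 2 := by
      have hce := hc e he
      simp only [cell, Prod.mk.injEq] at hce
      obtain ⟨hc1, hc2⟩ := hce
      have b1 := Int.abs_sub_lt_one_of_floor_eq_floor hc1
      have b2 := Int.abs_sub_lt_one_of_floor_eq_floor hc2
      set be := (q' : ℝ) / (l * Q) with hbe
      set al := (q : ℝ) * l / Q with hal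
      set be1 := (T.q' e : ℝ) / (l * Q) with hbe1
      set al1 := (T.q e : ℝ) * l / Q with hal1
      have e1 : ((dl e : ℤ) : ℝ) = Q ^ 2 * (al * (be1 - be) - be * (al1 - al)) := by
        simp only [hdl]
        push_cast
        rw [hbe, hal, hbe1, hal1]
        field_simp
        ring
      have hred := T.red e0
      rw [hj e0 he0, ← hl] at hred
      have hal' : |al| ≤ 1 := by
        rw [hal, abs_div, abs_mul, abs_of_pos hl0, abs_of_pos hQ0, div_le_one hQ0]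
        have := hred.h2
        rw [le_div_iff₀ hl0] at this
        exact this
      have hbe' : |be| ≤ 2 := by
        rw [hbe, abs_div, abs_of_pos (by positivity : 0 < l * Q), div_le_iff₀ (by positivity)]
        have := hred.h4
        linarith
      have d1 : |be1 - be| ≤ 1 / 100 := by
        have : 100 * be1 - 100 * be = 100 * (be1 - be) := by ring
        rw [this, abs_mul, abs_of_pos (by norm_num : (0:ℝ) < 100)] at b1
        linarith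
      have d2 : |al1 - al| ≤ 1 / 100 := by
        have : 100 * al1 - 100 * al = 100 * (al1 - al) := by ring
        rw [this, abs_mul, abs_of_pos (by norm_num : (0:ℝ) < 100)] at b2
        linarith
      rw [e1, abs_mul, abs_of_pos (by positivity : 0 < Q ^ 2)]
      have d3 : |al * (be1 - be) - be * (al1 - al)| ≤ 3 / 100 := by
        refine (abs_sub _ _).trans ?_
        rw [abs_mul, abs_mul]
        have : |al| * |be1 - be| ≤ 1 * (1 / 100) := by gcongr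
        have : |be| * |al1 - al| ≤ 2 * (1 / 100) := by gcongr
        linarith
      calc Q ^ 2 * |al * (be1 - be) - be * (al1 - al)| ≤ Q ^ 2 * (3 / 100) := by gcongr
        _ = 3 / 100 * Q ^ 2 := by ring
    have hδ : G ^ 2 * ((dl e : ℤ) : ℝ) ^ 2 ≤ 9 / 10000 * X := by
      calc G ^ 2 * ((dl e : ℤ) : ℝ) ^ 2 = G ^ 2 * |((dl e : ℤ) : ℝ)| ^ 2 := by rw [sq_abs]
        _ ≤ G ^ 2 * (3 / 100 * Q ^ 2) ^ 2 := by gcongr
        _ = 9 / 10000 * X := by rw [hX]; ring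
    have hm0 : (0 : ℝ) < w e0 := by linarith [hr0.wR]
    have hme : (0 : ℝ) ≤ w e := by linarith [hre.wR]
    obtain ⟨r1, r2⟩ := pair_real4 X e0.1 e.1 e0.2 (w e0) (w e) W P (dl e : ℤ) G hX0
      (hxr e0 he0).1 (hxr e0 he0).2 (hxr e he).1 (hxr e he).2 (by exact_mod_cast hr0.y0) hm0
      hr0.wW hme hre.wW hG0 hr0.k hδ hGW I1R I2R
    rw [hsX] at r1
    refine ⟨r1, ?_⟩
    have e2 : ((z e : ℤ) : ℝ) - ((e0.2 : ℝ) / e0.1 - t e0) * (dl e : ℤ) / (w e0 : ℝ) =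
        ((P : ℝ) - (e0.2 : ℝ) / e0.1 * (dl e : ℤ)) / w e0 := by
      have hPR : (P : ℝ) = w e0 * (z e : ℤ) + t e0 * (dl e : ℤ) := by exact_mod_cast hP
      rw [hPR]
      have : (w e0 : ℝ) ≠ 0 := hm0.ne'
      field_simp
      ring
    rw [e2, abs_div, abs_of_pos hm0, div_le_iff₀ hm0]
    exact r2
  set ρ := 5 * W / (G * Q ^ 2) with hρ
  have hW0 : 0 ≤ W := by linarith [hr0.wR, hr0.wW]
  have hρ0 : 0 ≤ ρ := by positivity
  set cen : ℤ → ℤ := fun d => ⌊((e0.2 : ℝ) / e0.1 - t e0) * d / (w e0 : ℝ)⌋ with hcen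
  set ψ : ℤ × ℤ → ℤ × ℤ := fun e => (dl e, z e - cen (dl e)) with hψ
  have hinj : Set.InjOn ψ U := by
    intro e he e' he' hee
    simp only [hψ, Prod.mk.injEq] at hee
    obtain ⟨k5, k6⟩ := hee
    have hzz : z e = z e' := by rw [k5] at k6; omega
    have r1 : ∀ e : ℤ × ℤ, z e * q - dl e * p = T.q e := by
      intro e
      simp only [hz, hdl]
      linear_combination (T.q e) * hdet
    have r2 : ∀ e : ℤ × ℤ, z e * q' - dl e * p' = T.q' e := by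
      intro e
      simp only [hz, hdl]
      linear_combination (T.q' e) * hdet
    have q1 : T.q e = T.q e' := by rw [← r1 e, ← r1 e', hzz, k5]
    have q2 : T.q' e = T.q' e' := by rw [← r2 e, ← r2 e', hzz, k5]
    obtain ⟨v0, v1, v2, -⟩ := vals4 T a b c e (hr e he)
    obtain ⟨v0', v1', v2', -⟩ := vals4 T a b c e' (hr e' he')
    rw [f0 e he, f1 e he, f2 e he, f3 e he, f4 e he] at v0 v1 v2
    rw [q1, q2] at v0 v1
    rw [f0 e' he', f1 e' he', f2 e' he', f3 e' he', f4 e' he'] at v0' v1' v2'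
    have g0 : w e = w e' := by rw [← v0, ← v0']
    have g1 : e.1 = e'.1 := by rw [← v1, ← v1']
    have g2 : e.2 ^ 2 = e'.2 ^ 2 := by
      rw [g0, v2'] at v2
      rw [g1] at v2
      linarith
    have g3 : e.2 = e'.2 := by
      have h5 := (hr e he).y0
      have h6 := (hr e' he').y0
      exact (sq_eq_sq₀ h5.le h6.le).mp g2
    exact Prod.ext g1 g3
  have hsub : U.image ψ ⊆ Icc (-⌊ρ⌋) ⌊ρ⌋ ×ˢ Icc (-2) 3 := by
    intro v hv
    obtain ⟨e, he, rfl⟩ := mem_image.mp hv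
    obtain ⟨k5, k6⟩ := key e he
    rw [mem_product]
    refine ⟨mem_box ?_, ?_⟩
    · simp only [hψ]
      rw [hρ, le_div_iff₀ hRQ0]
      exact k5
    · simp only [hψ, hcen]
      obtain ⟨k7, k8⟩ := abs_le.mp k6
      have g1 := Int.floor_le (((e0.2 : ℝ) / e0.1 - t e0) * (dl e : ℤ) / (w e0 : ℝ))
      have g2 := Int.lt_floor_add_one (((e0.2 : ℝ) / e0.1 - t e0) * (dl e : ℤ) / (w e0 : ℝ))
      set fl := ⌊((e0.2 : ℝ) / e0.1 - t e0) * (dl e : ℤ) / (w e0 : ℝ)⌋ with hfl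
      rw [mem_Icc]
      constructor
      · have : (-2 : ℝ) < ((z e - fl : ℤ) : ℝ) := by push_cast; linarith
        have : (-2 : ℤ) < z e - fl := by exact_mod_cast this
        omega
      · have : ((z e - fl : ℤ) : ℝ) < 3 := by push_cast; linarith
        have : z e - fl < 3 := by exact_mod_cast this
        omega
  have hcard := card_le_card hsub
  rw [card_image_of_injOn hinj, card_product] at hcard
  have h7 : (Icc (-2 : ℤ) 3).card = 6 := by simp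
  rw [h7] at hcard
  have hb := card_box ρ hρ0
  calc (U.card : ℝ) ≤ ((Icc (-⌊ρ⌋) ⌊ρ⌋).card : ℝ) * 6 := by exact_mod_cast hcard
    _ ≤ (2 * ρ + 1) * 6 := by gcongr
    _ = _ := by ring

end

end Pool.Agent.Zk16.Q
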